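import Pool.Agent.H26.ES.Targets

/-!
# Shared positions of a line (helper50, row SHP of the board of helper26)
-/

set_option autoImplicit false

open Finset MeasureTheory

namespace Pool.Agent.H50.EST

open Pool.Agent.H24.CL Pool.Agent.H24.LV Pool.Agent.H26.ES

/-- two lines in different classes have at most `k - 1` common cells -/
theorem shp_one (hTO : T_TO) (hSH : T_SH) (hCO : L_CO) (k q : ℕ) (hq : q.Prime) (hkq : k < q)
    (a a' : X k) (hd : a - a' ∉ H k q 1) (B : Finset ℕ) (hB : B ⊆ range q)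
    (hs : ∀ b ∈ B, phi q b a = phi q b a') : B.card ≤ k - 1 := by
  rcases B.eq_empty_or_nonempty with rfl | ⟨b, hb⟩
  · simp
  have h0 : ∀ b ∈ B, phi q b (a - a') = 0 := by
    intro b hb
    rw [map_sub, hs b hb, sub_self]
  have h1 : a - a' ∈ Kr k q b := ((hCO.2.2.2.1 k q b hq.one_le).2 (a - a')).2 (h0 b hb)
  have h2 : a - a' ∈ HF k q k := (mem_filter.1 h1).1
  have h3 : a - a' ∈ H k q k := ((hTO k q hq.one_le).2.1 k _).1 h2
  exact hSH k q hq hkq (a - a') h3 hd B
    (fun b hb => ⟨mem_range.1 (hB hb), h0 b hb⟩)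

/-- SHP -/
theorem pf_SHP (hTO : T_TO) (hSH : T_SH) (hCO : L_CO) : T_SHP := by
  refine ⟨shp_one hTO hSH hCO, ?_⟩
  intro k q G m hk hq hkq hm hC a ha B hB hU
  classical
  have hex : ∀ b ∈ B, ∃ κ : X k, κ ∈ Kr k q b ∧ a + κ ∈ G ∧ κ ∉ H k q 1 := by
    intro b hb
    by_contra hno
    refine hU b hb ⟨ha, fun κ hκ hG => ?_⟩
    by_contra h
    exact hno ⟨κ, hκ, hG, h⟩
  choose! kap hK hG hN using hex
  let cl : ℕ → X k ⧸ H k q 1 := fun b => QuotientAddGroup.mk (a + kap b)
  have hrep : ∀ c ∈ B.image cl, ∃ b ∈ B, cl b = c := fun c hc => by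
    obtain ⟨b, hb, h⟩ := mem_image.1 hc
    exact ⟨b, hb, h⟩
  choose! rep hrB hrc using hrep
  have hcl : ∀ b b' : ℕ, cl b = cl b' → (a + kap b) - (a + kap b') ∈ H k q 1 := by
    intro b b' h
    have h1 := QuotientAddGroup.eq.1 h
    have h2 : (a + kap b) - (a + kap b') = -(-(a + kap b) + (a + kap b')) := by abel
    rw [h2]
    exact neg_mem h1
  have hcl' : ∀ b b' : ℕ, (a + kap b) - (a + kap b') ∈ H k q 1 → cl b = cl b' := by
    intro b b' h
    refine QuotientAddGroup.eq.2 ?_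
    have h2 : -(a + kap b) + (a + kap b') = -((a + kap b) - (a + kap b')) := by abel
    rw [h2]
    exact neg_mem h
  -- the number of the classes
  have hcard : ((B.image cl).card : ℝ) ≤ m := by
    have hinj : Set.InjOn (fun c => a + kap (rep c)) (B.image cl : Finset _) := by
      intro c hc c' hc' h
      have e1 := hrc c hc
      have e2 := hrc c' hc'
      rw [← e1, ← e2]
      refine hcl' _ _ ?_
      have h3 : a + kap (rep c) = a + kap (rep c') := h
      rw [h3, sub_self]
      exact zero_mem _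
    rw [← card_image_of_injOn hinj]
    refine hC _ ?_ ?_ ?_
    · intro y hy
      obtain ⟨c, hc, rfl⟩ := mem_image.1 hy
      exact hG _ (hrB c hc)
    · intro y hy y' hy'
      obtain ⟨c, hc, rfl⟩ := mem_image.1 hy
      obtain ⟨c', hc', rfl⟩ := mem_image.1 hy'
      have h4 : ∀ b ∈ B, kap b ∈ H k q k := fun b hb =>
        ((hTO k q hq.one_le).2.1 k _).1 (mem_filter.1 (hK b hb)).1
      have h5 : (a + kap (rep c)) - (a + kap (rep c')) = kap (rep c) - kap (rep c') := by abel
      rw [h5]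
      exact sub_mem (h4 _ (hrB c hc)) (h4 _ (hrB c' hc'))
    · intro y hy y' hy' hyy
      obtain ⟨c, hc, rfl⟩ := mem_image.1 hy
      obtain ⟨c', hc', rfl⟩ := mem_image.1 hy'
      have h6 := hcl' _ _ hyy
      rw [hrc c hc, hrc c' hc'] at h6
      rw [h6]
  -- every class has at most `k - 1` positions
  have hfib : ∀ c ∈ B.image cl, (B.filter fun b => cl b = c).card ≤ k - 1 := by
    intro c hc
    refine shp_one hTO hSH hCO k q hq hkq (a + kap (rep c)) a ?_ _
      ((filter_subset _ _).trans hB) ?_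
    · rw [add_sub_cancel_left]
      exact hN _ (hrB c hc)
    · intro b hb
      obtain ⟨hbB, hbc⟩ := mem_filter.1 hb
      have h7 : phi q b ((a + kap (rep c)) - (a + kap b)) = 0 :=
        hCO.2.1 k q b _ (hcl _ _ ((hrc c hc).trans hbc.symm))
      rw [map_sub, sub_eq_zero] at h7
      rw [h7, map_add, (mem_filter.1 (hK b hbB)).2, add_zero]
  have h8 : B.card ≤ (k - 1) * (B.image cl).card := by
    have := card_le_mul_card_image (f := cl) B (k - 1) (fun c hc => hfib c hc)
    exact this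
  have h9 : (B.card : ℝ) ≤ ((k - 1 : ℕ) : ℝ) * ((B.image cl).card : ℝ) := by exact_mod_cast h8
  have h10 : ((k - 1 : ℕ) : ℝ) ≤ k := by exact_mod_cast Nat.sub_le k 1
  have h11 : (0 : ℝ) ≤ ((B.image cl).card : ℝ) := Nat.cast_nonneg _
  calc (B.card : ℝ) ≤ ((k - 1 : ℕ) : ℝ) * ((B.image cl).card : ℝ) := h9
    _ ≤ k * ((B.image cl).card : ℝ) := mul_le_mul_of_nonneg_right h10 h11
    _ ≤ k * m := mul_le_mul_of_nonneg_left hcard (Nat.cast_nonneg _)

end Pool.Agent.H50.EST
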